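import Pool.Agent.Helper15.EP.St

/-! Project EP, module SPT: splitting off the `r`-parts in tuples. -/

set_option autoImplicit false

namespace Pool.Agent.Helper86.EP

open Polynomial Pool.Agent.Helper15.FC Pool.Agent.Helper15.EP

private theorem sum_pi_succ {α : Type} [DecidableEq α] {l : ℕ} (S : Fin (l + 1) → Finset α)
    (G : (Fin (l + 1) → α) → ℂ) :
    ∑ b ∈ Fintype.piFinset S, G b = ∑ x ∈ S 0,
      ∑ b ∈ Fintype.piFinset (fun i : Fin l => S i.succ), G (Fin.cons x b) := by
  rw [← Finset.sum_product']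
  refine Finset.sum_nbij' (fun b => (b 0, Fin.tail b)) (fun p => Fin.cons p.1 p.2) ?_ ?_ ?_ ?_ ?_
  · intro b hb
    rw [Fintype.mem_piFinset] at hb
    rw [Finset.mem_product, Fintype.mem_piFinset]
    exact ⟨hb 0, fun i => hb i.succ⟩
  · rintro ⟨x, b⟩ hb
    rw [Finset.mem_product, Fintype.mem_piFinset] at hb
    rw [Fintype.mem_piFinset]
    intro i
    refine Fin.cases ?_ (fun i => ?_) i
    · exact hb.1
    · exact hb.2 i
  · intro b _
    exact Fin.cons_self_tail b
  · rintro ⟨x, b⟩ _
    simp only [Fin.cons_zero, Fin.tail_cons]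
  · intro b _
    simp only [Fin.cons_self_tail]

private theorem sml_split (hSPL : StSPL) {F : Type} [Field F] [Fintype F] (r : F[X]) (n : ℕ)
    (g : F[X] → ℂ) (hr : r.Monic) :
    ∑ f ∈ Mn F n, g f = ∑ f0 ∈ Sml r n, ∑ f1 ∈ Cp r (n - f0.natDegree), g (f0 * f1) := by
  classical
  rw [hSPL F r n g hr]
  unfold Sml
  rw [Finset.sum_biUnion]
  · refine Finset.sum_congr rfl fun i _ => Finset.sum_congr rfl fun f0 hf0 => ?_
    have h : f0.natDegree = i := by
      simp only [Sm, Finset.mem_filter] at hf0
      exact (mem_Mn.1 hf0.1).2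
    rw [h]
  · intro i _ j _ hij
    rw [Function.onFun, Finset.disjoint_left]
    intro f hi hj
    simp only [Sm, Finset.mem_filter] at hi hj
    exact hij ((mem_Mn.1 hi.1).2.symm.trans (mem_Mn.1 hj.1).2)

/-- **SPT.** -/
theorem hSPT (hSPL : StSPL) : StSPT := by
  classical
  intro F _ _ l
  induction l with
  | zero =>
    intro y r G _
    unfold Tup
    have e : ∀ (S : Fin 0 → Finset F[X]), Fintype.piFinset S = {default} := by
      intro S
      ext b
      simp only [Fintype.mem_piFinset, Finset.mem_singleton, IsEmpty.forall_iff, true_iff]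
      exact Subsingleton.elim _ _
    simp only [e, Finset.sum_singleton]
    exact congrArg G (Subsingleton.elim _ _)
  | succ l ih =>
    intro y r G hr
    unfold Tup at ih ⊢
    rw [sum_pi_succ]
    have e1 : ∀ x : F[X], ∑ b ∈ Fintype.piFinset (fun i : Fin l => Mn F (y i.succ)),
        G (Fin.cons x b) = ∑ b0 ∈ Fintype.piFinset (fun j : Fin l => Sml r (y j.succ)),
        ∑ b1 ∈ Fintype.piFinset (fun j : Fin l => Cp r (y j.succ - (b0 j).natDegree)),
          G (Fin.cons x (fun j => b0 j * b1 j)) := fun x =>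
      ih (fun i => y i.succ) r (fun b => G (Fin.cons x b)) hr
    simp only [e1]
    rw [sml_split hSPL r (y 0) _ hr, sum_pi_succ]
    refine Finset.sum_congr rfl fun f0 _ => ?_
    rw [Finset.sum_comm]
    refine Finset.sum_congr rfl fun b0 _ => ?_
    rw [sum_pi_succ]
    refine Finset.sum_congr rfl fun f1 _ => ?_
    refine Finset.sum_congr rfl fun b1 _ => ?_
    congr 1
    funext j
    refine Fin.cases ?_ (fun i => ?_) j
    · simp only [Fin.cons_zero]
    · simp only [Fin.cons_succ]

end Pool.Agent.Helper86.EP
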